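import Pool.Agent.MWK.Stmts

/-!
# Squad MWK (MP_23468a_al), row DER: invisible exchanges give all agreeing pairs
-/

set_option autoImplicit false

namespace Pool.Agent.MWK.H88

open Pool.Agent.Helper14_MV Pool.Agent.Helper2_MV

theorem der (htru : TruStmt) (hsrt : SrtStmt) : DerStmt := by
  intro F hF θ hK hB u v h
  obtain ⟨u', hu1, hu2, hu3⟩ := htru θ hK u
  obtain ⟨v', hv1, hv2, hv3⟩ := htru θ hK v
  have hFv : ∀ y x i, F v y x i ↔ F v' y x i := hF v v' (hv3.weaken (fun _ _ _ _ => trivial))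
  have h1 : Ag (F v') u' u := (hu3.weaken (G := F v') (fun _ _ _ _ => trivial)).symm
  have h2 : Ag (F v') u v := h.weaken (fun y x i hg => (hFv y x i).2 hg)
  have h3 : Ag (F v') v v' := hv3.weaken (fun _ _ _ _ => trivial)
  have h4 : Ag (F v') u' v' := (h1.trans h2).trans h3
  have hc : ∀ x, u'.count x = v'.count x := by
    intro x
    have e0 := h4.1 x 0 (by omega)
    have e1 := h4.1 x 1 (by omega)
    have e2 := hu2 x
    have e3 := hv2 x
    omega
  have h5 : RR θ u' v' := by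
    refine hsrt θ (F v') v' hv2 ?_ u' hc h4
    intro P a b Q hab ha hb hag hna hnb
    have hFW := hF _ _ hag
    refine hB P a b Q hab ha hb ?_ ?_
    · rintro ⟨h6, h7⟩
      exact hna ⟨h6, (hFW _ _ _).1 h7⟩
    · rintro ⟨h6, h7⟩
      exact hnb ⟨h6, (hFW _ _ _).1 h7⟩
  exact θ.trans (θ.trans hu1 h5) hv1.symm

end Pool.Agent.MWK.H88
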